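import Pool.Agent.X296.Enr.Bridge

/-!
# Components of the closure of the rational points of Enriques surfaces with a triquadratic
double cover (helper296)

Let `F` be a polynomial of tridegree `(2,2,2)` over `ℚ` which is invariant under the simultaneous
change of the signs of `X (0,1)`, `X (1,1)`, `X (2,1)`: a linear combination with coefficients
`c k` of the 14 invariant monomials of tridegree `(2,2,2)`.  The sign change is an involution of
the surface `Y ⊂ P¹ × P¹ × P¹` given by `F = 0`.  It has no fixed points on `Y` if and only if the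
coefficients `c k` of the 8 corner monomials (`k i ≠ 1` for all `i`) are not zero.  The quotient
`X` of `Y` by this involution (an Enriques surface if `Y` is smooth) is embedded in `P¹³` by the 14
invariant monomials `z k`; its equations are `z k * z l = z m * z n` for `k + l = m + n`, and
`∑ c k * z k = 0`.

If `Y` has at most finitely many singular points and contains no fibre of the projections to
`P¹ × P¹`, then the closures of the sets of the rational points of the affine pieces of `X` have
only finitely many connected components.  The same holds for the closures of the sets of the values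
of rational functions at the rational points of the products of finitely many such surfaces and of
an affine space.
-/

set_option autoImplicit false

namespace Pool.Agent.Results.MP_4d3b00_ag.EnriquesSurfaces

open MvPolynomial

/-- The indices of the monomials of tridegree `(2,2,2)` which are invariant under the sign
change. -/
abbrev Idx : Type := {k : Fin 3 → Fin 3 // Even ((k 0 : ℕ) + k 1 + k 2)}

/-- The equation `F` of the covering surface `Y`. -/
noncomputable def coverForm (c : Idx → ℚ) : MvPolynomial (Fin 3 × Fin 2) ℚ :=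
  ∑ k : Idx, C (c k) * ∏ i : Fin 3, (X (i, 0) ^ (2 - (k.1 i : ℕ)) * X (i, 1) ^ (k.1 i : ℕ))

/-- The hypotheses. -/
structure Admissible (c : Idx → ℚ) : Prop where
  /-- the sign change has no fixed points on `Y` -/
  free : ∀ k : Idx, (∀ i, k.1 i ≠ 1) → c k ≠ 0
  /-- no fibre of the projections to two of the factors lies on `Y` -/
  noFibre : ∀ (i : Fin 3) (p : Fin 3 → Fin 2 → AlgebraicClosure ℚ), (∀ j, p j ≠ 0) →
    ∃ w : Fin 2 → AlgebraicClosure ℚ,
      aeval (fun q : Fin 3 × Fin 2 => Function.update p i w q.1 q.2) (coverForm c) ≠ 0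
  /-- `Y` has only finitely many singular points -/
  isolated : ∃ S : Set (Fin 3 → Fin 2 → AlgebraicClosure ℚ), S.Finite ∧
    ∀ p : Fin 3 → Fin 2 → AlgebraicClosure ℚ, (∀ i, p i ≠ 0) →
      (∀ q : Fin 3 × Fin 2,
        aeval (fun r : Fin 3 × Fin 2 => p r.1 r.2) (pderiv q (coverForm c)) = 0) →
      ∃ s ∈ S, ∀ i, ∃ t : AlgebraicClosure ℚ, p i = t • s i

/-- The homogeneous coordinates of the rational points of the surface `X ⊂ P¹³`. -/
def OnSurface (c z : Idx → ℚ) : Prop :=
  z ≠ 0 ∧ (∀ k l m n : Idx, (∀ i, (k.1 i : ℕ) + l.1 i = m.1 i + n.1 i) →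
    z k * z l = z m * z n) ∧ ∑ k, c k * z k = 0

theorem result :
    -- the affine pieces `z l = 1` of `X`
    (∀ c : Idx → ℚ, Admissible c → ∀ l : Idx,
      Finite (ConnectedComponents ↥(closure
        {x : Idx → ℝ | ∃ z : Idx → ℚ, OnSurface c z ∧ z l = 1 ∧ ∀ k, x k = (z k : ℝ)}))) ∧
    -- values of rational functions at the rational points of products of such surfaces and of
    -- affine spaces
    (∀ (ι κ : Type) [Finite ι] [Finite κ] (c : ι → Idx → ℚ), (∀ j, Admissible (c j)) →
      ∀ (m : Type) [Finite m] (p : m → MvPolynomial ((ι × Idx) ⊕ κ) ℚ)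
        (q : MvPolynomial ((ι × Idx) ⊕ κ) ℚ),
        Finite (ConnectedComponents ↥(closure
          {y : m → ℝ | ∃ (z : ι → Idx → ℚ) (u : κ → ℚ),
            (∀ j, OnSurface (c j) (z j)) ∧ eval (Sum.elim (fun r => z r.1 r.2) u) q ≠ 0 ∧
            ∀ i, y i = ((eval (Sum.elim (fun r => z r.1 r.2) u) (p i) /
              eval (Sum.elim (fun r => z r.1 r.2) u) q : ℚ) : ℝ)}))) := by
  have hadm : ∀ c : Idx → ℚ, Admissible c → (∀ k : X296.Enr.I, (∀ i, k.1 i ≠ 1) → c k ≠ 0) ∧
      X296.Enr.Adm2 (W279.Tri.form (X296.Enr.arr 1 c)) := by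
    intro c hc
    refine ⟨hc.free, ?_⟩
    have h1 : coverForm c = W279.Tri.form (X296.Enr.arr 1 c) := X296.Enr.form_eq c
    rw [← h1]
    exact ⟨hc.noFibre, hc.isolated⟩
  have main : ∀ (ι κ : Type) [Finite ι] [Finite κ] (c : ι → Idx → ℚ), (∀ j, Admissible (c j)) →
      ∀ (m : Type) [Finite m] (p : m → MvPolynomial ((ι × Idx) ⊕ κ) ℚ)
        (q : MvPolynomial ((ι × Idx) ⊕ κ) ℚ),
        Finite (ConnectedComponents ↥(closure
          {y : m → ℝ | ∃ (z : ι → Idx → ℚ) (u : κ → ℚ),
            (∀ j, OnSurface (c j) (z j)) ∧ eval (Sum.elim (fun r => z r.1 r.2) u) q ≠ 0 ∧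
            ∀ i, y i = ((eval (Sum.elim (fun r => z r.1 r.2) u) (p i) /
              eval (Sum.elim (fun r => z r.1 r.2) u) q : ℚ) : ℝ)})) := by
    intro ι κ _ _ c hc m _ p q
    exact TH729.SQ.sa_comp (X296.Enr.SA_values (fun j => (hadm (c j) (hc j)).1)
      (fun j => (hadm (c j) (hc j)).2) p q)
  refine ⟨fun c hc l => ?_, main⟩
  have h := main Unit Empty (fun _ => c) (fun _ => hc) Idx (fun k => X (Sum.inl ((), k)))
    (X (Sum.inl ((), l)))
  have e : {x : Idx → ℝ | ∃ z : Idx → ℚ, OnSurface c z ∧ z l = 1 ∧ ∀ k, x k = (z k : ℝ)} =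
      {y : Idx → ℝ | ∃ (z : Unit → Idx → ℚ) (u : Empty → ℚ),
        (∀ _j : Unit, OnSurface c (z _j)) ∧
        eval (Sum.elim (fun r : Unit × Idx => z r.1 r.2) u) (X (Sum.inl ((), l))) ≠ 0 ∧
        ∀ i, y i = ((eval (Sum.elim (fun r : Unit × Idx => z r.1 r.2) u) (X (Sum.inl ((), i))) /
          eval (Sum.elim (fun r : Unit × Idx => z r.1 r.2) u) (X (Sum.inl ((), l))) : ℚ) : ℝ)} := by
    ext x
    constructor
    · rintro ⟨z, hz, hl, hx⟩
      refine ⟨fun _ => z, fun s => s.elim, fun _ => hz, by simp [hl], fun i => ?_⟩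
      rw [hx i]
      simp [hl]
    · rintro ⟨z, u, hz, hl, hx⟩
      simp only [eval_X, Sum.elim_inl] at hl hx
      refine ⟨fun k => z () k / z () l, ⟨?_, ?_, ?_⟩, div_self hl, hx⟩
      · intro h0
        have := congrFun h0 l
        simp only [Pi.zero_apply, div_self hl] at this
        exact one_ne_zero this
      · intro a b m n hab
        have := (hz ()).2.1 a b m n hab
        simp only
        rw [div_mul_div_comm, div_mul_div_comm, this]
      · have h3 := (hz ()).2.2
        have h4 : ∑ k, c k * (z () k / z () l) = (∑ k, c k * z () k) / z () l := by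
          rw [Finset.sum_div]
          exact Finset.sum_congr rfl fun k _ => by ring
        rw [h4, h3, zero_div]
  rw [e]
  exact h

end Pool.Agent.Results.MP_4d3b00_ag.EnriquesSurfaces
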