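import Pool.Agent.X296.Kum.Quot
import Pool.Agent.TH729.SQ.Comp

/-!
# Components of the closures of the rational points of free quotients of double covers of
Kummer type (helper296)

Let `q_i(t) = a_i t⁴ + b_i t² + c_i`, `i = 1, …, r`, be separable even polynomials of degree four over
`ℚ` with `q_i(0) ≠ 0`: `a_i c_i (b_i² - 4 a_i c_i) ≠ 0`. Let `Y` be the variety `w² = ∏ q_i(z_i)`, with
`z ∈ (P¹)^r`: the quotient of the product of the curves `v_i² = q_i(z_i)` of genus one by a group
`(ℤ/2)^(r-1)`, a Kummer surface for `r = 2` and a singular Calabi–Yau variety of dimension `r` in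
general. The involution `(w, z) ↦ (-w, -z)` of `Y` has no fixed points: `z_i = -z_i` means
`z_i ∈ {0, ∞}`, where `∏ q_i` does not vanish. Let `X` be the quotient of `Y` by this involution; if
`r = 2`, then (the minimal resolution of) `X` is an Enriques surface, a quotient of a Kummer surface
by an involution of Lieberman's type.

The part of `X` with all `z_i` finite is an affine variety with the coordinates `v_ij = z_i z_j` and
`y_i = w z_i`; its equations are

  `v_ij v_kl = v_ik v_jl`, `v_ij = v_ji`, `y_i v_jk = y_j v_ik`,
  `y_i y_j = v_ij ∏_k (a_k v_kk² + b_k v_kk + c_k)`.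

(The other parts, with `z_i` replaced by `1/z_i` for some of the indices `i`, are of the same form,
with `a_i` and `c_i` exchanged.)

The closure in the real affine space of the set of the rational points of this affine part has only
finitely many connected components. The same holds for the closure of the set of the values of
rational functions at the rational points of products of such varieties and affine spaces.

Idea of the proof. The rational points of `X` come from the rational points of all quadratic twists
`d w² = ∏ (a_i d² z_i⁴ + b_i d z_i² + c_i)` of `Y`, and only finitely many twists (up to squares) have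
rational points: if `d` has odd valuation at a place where all `a_i`, `c_i` are units and the `b_i`
are integral, then the values of the factors at every point have even valuation, and the left hand
side has odd valuation (`Pool.Agent.X296.Kum.Sel`; the covering `Y → X` is unramified). The closure
of the set of all rational points of a twist is treated in `Pool.Agent.X296.Kum.Real2` (see the file
`KummerType` of the folder MP_42de19_nt).
-/

set_option autoImplicit false

namespace Pool.Agent.Results.MP_4d3b00_ag.FreeKummerQuotients

open MvPolynomial Pool.Agent.TH729.SQ Pool.Agent.H581R2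

/-- The indices of the coordinates `v_ij = z_i z_j` and `y_i = w z_i`. -/
abbrev Coord (r : ℕ) : Type := (Fin r × Fin r) ⊕ Fin r

/-- The coefficients of the polynomials `q_i(t) = a_i t⁴ + b_i t² + c_i`. -/
structure Datum (r : ℕ) where
  /-- the coefficient of `t⁴` -/
  a : Fin r → ℚ
  /-- the coefficient of `t²` -/
  b : Fin r → ℚ
  /-- the constant term -/
  c : Fin r → ℚ

/-- The `q_i` are separable of degree four and do not vanish at `0`. -/
structure Admissible {r : ℕ} (E : Datum r) : Prop where
  lead : ∀ i, E.a i ≠ 0
  const : ∀ i, E.c i ≠ 0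
  disc : ∀ i, E.b i ^ 2 - 4 * E.a i * E.c i ≠ 0

/-- The rational points of the affine part of the quotient `X`. The coordinates are
`v_ij = p (Sum.inl (i, j))` and `y_i = p (Sum.inr i)`. -/
structure OnQuotient {r : ℕ} (E : Datum r) (p : Coord r → ℚ) : Prop where
  rank : ∀ i j k l, p (Sum.inl (i, j)) * p (Sum.inl (k, l)) =
    p (Sum.inl (i, k)) * p (Sum.inl (j, l))
  symm : ∀ i j, p (Sum.inl (i, j)) = p (Sum.inl (j, i))
  parallel : ∀ i j k, p (Sum.inr i) * p (Sum.inl (j, k)) = p (Sum.inr j) * p (Sum.inl (i, k))
  square : ∀ i j, p (Sum.inr i) * p (Sum.inr j) = p (Sum.inl (i, j)) *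
    ∏ k, (E.a k * p (Sum.inl (k, k)) ^ 2 + E.b k * p (Sum.inl (k, k)) + E.c k)

theorem points_SA {r : ℕ} {E : Datum r} (hE : Admissible E) :
    SA (closure (rl {p | OnQuotient E p})) := by
  have h := Pool.Agent.X296.Kum.onQ_SA hE.lead hE.const hE.disc
  have e : {p | Pool.Agent.X296.Kum.OnQ E.a E.b E.c p} = {p | OnQuotient E p} := by
    ext p
    exact ⟨fun ⟨h1, h2, h3, h4⟩ => ⟨h1, h2, h3, h4⟩, fun ⟨h1, h2, h3, h4⟩ => ⟨h1, h2, h3, h4⟩⟩
  rwa [e] at h

/-- **The components of the closure of the set of the rational points of free quotients of double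
covers of Kummer type.** -/
theorem result :
    -- (1) the closure of the set of the rational points
    (∀ (r : ℕ) (E : Datum r), Admissible E → Finite (ConnectedComponents
      ↥(closure {x : Coord r → ℝ | ∃ p : Coord r → ℚ, OnQuotient E p ∧ x = fun k => (p k : ℝ)}))) ∧
    -- (2) the closure of the set of the values of rational functions on products
    (∀ (J κ : Type) [Finite J] [Finite κ] (r : ℕ) (E : J → Datum r), (∀ j, Admissible (E j)) →
      ∀ (m : Type) [Finite m] (p : m → MvPolynomial ((J × Coord r) ⊕ κ) ℚ)
        (q : MvPolynomial ((J × Coord r) ⊕ κ) ℚ),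
        Finite (ConnectedComponents
          ↥(closure {y : m → ℝ | ∃ (x : J → Coord r → ℚ) (u : κ → ℚ),
            (∀ j, OnQuotient (E j) (x j)) ∧ eval (Sum.elim (fun a => x a.1 a.2) u) q ≠ 0 ∧
            ∀ k, y k = ((eval (Sum.elim (fun a => x a.1 a.2) u) (p k) /
              eval (Sum.elim (fun a => x a.1 a.2) u) q : ℚ) : ℝ)}))) := by
  refine ⟨fun r E hE => sa_comp (points_SA hE), ?_⟩
  intro J κ _ _ r E hE m _ p q
  exact sa_comp (values_main (fun j => {p | OnQuotient (E j) p}) (fun j => points_SA (hE j)) p q)

end Pool.Agent.Results.MP_4d3b00_ag.FreeKummerQuotients
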