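import Pool.Agent.X296.Hor.Main
import Pool.Agent.TH729.SQ.Comp

/-!
# Components of the closures of the rational points of Horikawa models of Enriques surfaces (helper296)

Let `f` be an even polynomial in `n` variables over `ℚ` (`f(-z) = f(z)`), of degree at most four in
each variable, such that the coefficients of the `2ⁿ` monomials with all exponents in `{0, 4}` are
not zero. Let `Y` be the double cover `w² = f(z)` of `(P¹)ⁿ`, in general a K3 surface for `n = 2` and
a Calabi–Yau variety of dimension `n`. The involution `(w, z) ↦ (-w, -z)` of `Y` has no fixed points,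
because `f` does not vanish at the `2ⁿ` points with coordinates in `{0, ∞}`. Let `X` be the quotient
of `Y` by this involution. For `n = 2` these are Horikawa's models of the (general) Enriques surfaces.

We write `f(z) = g(z_i z_j)`, with a polynomial `g` in variables `v_ij`. The part of `X` with all `z_i`
finite is an affine variety with the coordinates `v_ij = z_i z_j` and `y_i = w z_i`; its equations are

  `v_ij v_kl = v_ik v_jl`, `v_ij = v_ji`, `y_i v_jk = y_j v_ik`, `y_i y_j = v_ij g(v)`.

The rational points of `X` are the images of the rational points of the twists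
`d w² = f_d(z)`, where `f_d(z) = g(d z_i z_j)` (that is, `f(√d z)`) and `d` is a squarefree integer:
`v_ij = d z_i z_j`, `y_i = d w z_i`. We call such a point nondegenerate, if `w ≠ 0` and `z` is
nondegenerate for the double cover `(d w)² = d f_d(z)` in the sense of the starting file
`CalabiYauDoubleCovers` (in the folder MP_42de19_nt): roughly, if on the curves of genus one in the
directions of the axes (or other directions of degree at most four) the difference of the two points
over `z` is of infinite order.

The closure in the real affine space of the set of the nondegenerate rational points of `X` has only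
finitely many connected components. The same holds for the closure of the set of the values of
rational functions at such points of products of such varieties and affine spaces.

Idea of the proof. Only finitely many twists have rational points: if `p` divides `d` and all nonzero
coefficients of `f` are `p`-adic units, then the absolute values `|d z_i²|` are different from `1`, one
of the `2ⁿ` extreme terms of `f_d(z)` dominates all the others, and its valuation is even, but the
valuation of `d w²` is odd (`Pool.Agent.X296.Hor.Sel`). The nondegenerate points of each twist are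
treated in the starting file.
-/

set_option autoImplicit false

namespace Pool.Agent.Results.MP_4d3b00_ag.HorikawaModels

open MvPolynomial Pool.Agent.TH729.SQ Pool.Agent.Y718.X Pool.Agent.H581R2

/-- The indices of the coordinates `v_ij = z_i z_j` and `y_i = w z_i`. -/
abbrev Coord (n : ℕ) : Type := (Fin n × Fin n) ⊕ Fin n

/-- The polynomial `f_d(z) = g(d z_i z_j)`. -/
noncomputable def twist {n : ℕ} (g : MvPolynomial (Fin n × Fin n) ℚ) (d : ℚ) :
    MvPolynomial (Fin n) ℚ :=
  aeval (fun x : Fin n × Fin n => C d * (X x.1 * X x.2)) g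

/-- The polynomial `f(z) = g(z_i z_j)` has degree at most four in each variable, and the
coefficients of the monomials with all exponents in `{0, 4}` are not zero. -/
structure Admissible {n : ℕ} (g : MvPolynomial (Fin n × Fin n) ℚ) : Prop where
  degree : ∀ i, (twist g 1).degreeOf i ≤ 4
  free : ∀ k : Fin n →₀ ℕ, (∀ i, k i = 0 ∨ k i = 4) → coeff k (twist g 1) ≠ 0

/-- The rational points of the affine part of the quotient `X`. The coordinates are
`v_ij = p (Sum.inl (i, j))` and `y_i = p (Sum.inr i)`. -/
structure OnQuotient {n : ℕ} (g : MvPolynomial (Fin n × Fin n) ℚ) (p : Coord n → ℚ) : Prop where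
  rank : ∀ i j k l, p (Sum.inl (i, j)) * p (Sum.inl (k, l)) =
    p (Sum.inl (i, k)) * p (Sum.inl (j, l))
  symm : ∀ i j, p (Sum.inl (i, j)) = p (Sum.inl (j, i))
  parallel : ∀ i j k, p (Sum.inr i) * p (Sum.inl (j, k)) = p (Sum.inr j) * p (Sum.inl (i, k))
  square : ∀ i j, p (Sum.inr i) * p (Sum.inr j) =
    p (Sum.inl (i, j)) * eval (fun x => p (Sum.inl x)) g

/-- The point of `X` given by the point `(w, z)` of the twist by `d`. -/
def image {n : ℕ} (d w : ℚ) (z : Fin n → ℚ) : Coord n → ℚ :=
  Sum.elim (fun x => d * (z x.1 * z x.2)) fun i => d * w * z i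

/-- The polynomial `f(z + t v)` in `t`. -/
noncomputable def restriction {n : ℕ} (f : MvPolynomial (Fin n) ℚ) (z v : Fin n → ℚ) :
    Polynomial ℚ :=
  aeval (fun k => Polynomial.C (z k) + Polynomial.C (v k) * Polynomial.X) f

/-- The polynomial `f` has degree at most `d` on all lines of direction `v`. -/
def DegreeAtMost {n : ℕ} (d : ℕ) (f : MvPolynomial (Fin n) ℚ) (v : Fin n → ℚ) : Prop :=
  ∀ z : Fin n → ℚ, (restriction f z v).natDegree ≤ d

/-- The Jacobian of the curve `s² = q(t)`, where `q` is a polynomial of degree at most `4`. -/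
def jacobian (q : Polynomial ℚ) : WeierstrassCurve ℚ where
  a₁ := 0
  a₂ := q.coeff 2
  a₃ := 0
  a₄ := q.coeff 1 * q.coeff 3 - 4 * q.coeff 0 * q.coeff 4
  a₆ := q.coeff 1 ^ 2 * q.coeff 4 + q.coeff 0 * q.coeff 3 ^ 2 -
    4 * q.coeff 0 * q.coeff 2 * q.coeff 4

/-- The Jacobian is nonsingular, `q(0) = w²` for a rational number `w ≠ 0`, and the difference of
the two points `(0, w)` and `(0, -w)` has infinite order. -/
def InfiniteOrder (q : Polynomial ℚ) : Prop :=
  (jacobian q).Δ ≠ 0 ∧ ∃ (w x y : ℚ) (h : (jacobian q).toAffine.Nonsingular x y),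
    w ≠ 0 ∧ w ^ 2 = q.coeff 0 ∧ x = q.coeff 1 ^ 2 / (4 * w ^ 2) - q.coeff 2 ∧
    y = (q.coeff 1 * x + 2 * w ^ 2 * q.coeff 3) / (2 * w) ∧
    ∀ m : ℕ, m ≠ 0 → m • WeierstrassCurve.Affine.Point.some x y h ≠ 0

/-- The point `z` is nondegenerate: there is a basis `b` of directions of degree at most `4`, such
that each `b k` is of degree at most `2` or the condition of infinite order is satisfied at some
point which differs from `z` by a linear combination of the preceding vectors. -/
def Nondegenerate {n : ℕ} (f : MvPolynomial (Fin n) ℚ) (z : Fin n → ℚ) : Prop :=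
  ∃ b : Fin n → Fin n → ℚ, LinearIndependent ℚ b ∧ ∀ k, DegreeAtMost 4 f (b k) ∧
    (DegreeAtMost 2 f (b k) ∨ ∃ c : Fin n → ℚ, (∀ l, k ≤ l → c l = 0) ∧
      InfiniteOrder (restriction f (z + ∑ j, c j • b j) (b k)))

/-- The nondegenerate rational points of `X`. -/
def points {n : ℕ} (g : MvPolynomial (Fin n × Fin n) ℚ) : Set (Coord n → ℚ) :=
  {p | ∃ (d : ℤ) (w : ℚ) (z : Fin n → ℚ), Squarefree d ∧ w ≠ 0 ∧
    (d : ℚ) * w ^ 2 = eval z (twist g d) ∧ Nondegenerate (C (d : ℚ) * twist g d) z ∧
    p = image d w z}

lemma nondegenerate_iff {n : ℕ} (f : MvPolynomial (Fin n) ℚ) (z : Fin n → ℚ) :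
    Nondegenerate f z ↔ NX f z := by
  have h : ∀ q, InfiniteOrder q ↔ Pool.Agent.Y718.X.Inf q := fun q => infO_iff q
  unfold Nondegenerate NX
  simp only [h]
  exact Iff.rfl

lemma points_eq {n : ℕ} (g : MvPolynomial (Fin n × Fin n) ℚ) :
    points g = Pool.Agent.X296.Hor.NP g := by
  ext p
  simp only [points, nondegenerate_iff]
  exact Iff.rfl

lemma Admissible.adm {n : ℕ} {g : MvPolynomial (Fin n × Fin n) ℚ} (hg : Admissible g) :
    Pool.Agent.X296.Hor.Adm g := ⟨hg.degree, hg.free⟩

theorem points_SA {n : ℕ} {g : MvPolynomial (Fin n × Fin n) ℚ} (hg : Admissible g) :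
    SA (closure (rl (points g))) := by
  rw [points_eq]
  exact Pool.Agent.X296.Hor.NP_SA hg.adm

theorem rational_points {n : ℕ} {g : MvPolynomial (Fin n × Fin n) ℚ} (hg : Admissible g) :
    ∃ D : Set ℤ, D.Finite ∧ (∀ d ∈ D, Squarefree d) ∧ ∀ p : Coord n → ℚ, OnQuotient g p ↔
      ∃ d ∈ D, ∃ (w : ℚ) (z : Fin n → ℚ), (d : ℚ) * w ^ 2 = eval z (twist g d) ∧
        p = image d w z := by
  obtain ⟨D, hD, h⟩ := Pool.Agent.X296.Hor.exists_twists hg.adm
  refine ⟨{d | d ∈ D ∧ Squarefree d}, hD.subset fun d hd => hd.1, fun d hd => hd.2, fun p => ?_⟩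
  have h1 : OnQuotient g p ↔ Pool.Agent.X296.Hor.OnQ g p :=
    ⟨fun ⟨h1, h2, h3, h4⟩ => ⟨h1, h2, h3, h4⟩, fun ⟨h1, h2, h3, h4⟩ => ⟨h1, h2, h3, h4⟩⟩
  rw [h1, Pool.Agent.X296.Hor.onQ_iff hg.adm]
  constructor
  · rintro ⟨d, w, z, hd, hw, rfl⟩
    exact ⟨d, ⟨h d w z hd hw, hd⟩, w, z, hw, rfl⟩
  · rintro ⟨d, ⟨-, hd⟩, w, z, hw, rfl⟩
    exact ⟨d, w, z, hd, hw, rfl⟩

/-- **The components of the closure of the set of the nondegenerate rational points of Horikawa
models of Enriques surfaces, and of their analogues of higher dimension.** -/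
theorem result :
    -- (0) the rational points of `X` come from finitely many twists of `Y`
    (∀ (n : ℕ) (g : MvPolynomial (Fin n × Fin n) ℚ), Admissible g →
      ∃ D : Set ℤ, D.Finite ∧ (∀ d ∈ D, Squarefree d) ∧ ∀ p : Coord n → ℚ, OnQuotient g p ↔
        ∃ d ∈ D, ∃ (w : ℚ) (z : Fin n → ℚ), (d : ℚ) * w ^ 2 = eval z (twist g d) ∧
          p = image d w z) ∧
    -- (1) the closure of the set of the nondegenerate rational points
    (∀ (n : ℕ) (g : MvPolynomial (Fin n × Fin n) ℚ), Admissible g → Finite (ConnectedComponents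
      ↥(closure {x : Coord n → ℝ | ∃ p ∈ points g, x = fun k => (p k : ℝ)}))) ∧
    -- (2) the closure of the set of the values of rational functions on products
    (∀ (J κ : Type) [Finite J] [Finite κ] (n : ℕ) (g : J → MvPolynomial (Fin n × Fin n) ℚ),
      (∀ j, Admissible (g j)) →
      ∀ (m : Type) [Finite m] (p : m → MvPolynomial ((J × Coord n) ⊕ κ) ℚ)
        (q : MvPolynomial ((J × Coord n) ⊕ κ) ℚ),
        Finite (ConnectedComponents
          ↥(closure {y : m → ℝ | ∃ (x : J → Coord n → ℚ) (u : κ → ℚ),
            (∀ j, x j ∈ points (g j)) ∧ eval (Sum.elim (fun a => x a.1 a.2) u) q ≠ 0 ∧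
            ∀ k, y k = ((eval (Sum.elim (fun a => x a.1 a.2) u) (p k) /
              eval (Sum.elim (fun a => x a.1 a.2) u) q : ℚ) : ℝ)}))) := by
  refine ⟨fun n g hg => rational_points hg, fun n g hg => sa_comp (points_SA hg), ?_⟩
  intro J κ _ _ n g hg m _ p q
  exact sa_comp (values_main (fun j => points (g j)) (fun j => points_SA (hg j)) p q)

end Pool.Agent.Results.MP_4d3b00_ag.HorikawaModels
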